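import Mathlib
import Pool.Agent.N546.PN.Stm3

/-!
# Project PW (helper546), part NRM (helper607): normalisation of the points
-/

set_option autoImplicit false

namespace Pool.Agent.N607.PW

open Pool.Agent.N546.PN

theorem norm_one' {K : Type} [NormedField K] {n : ℕ} (x : Fin n → K) (hx : x ≠ 0) :
    ∃ t : K, t ≠ 0 ∧ ‖t • x‖ = 1 := by
  have hne : Nonempty (Fin n) := by
    by_contra h
    rw [not_nonempty_iff] at h
    exact hx (funext fun i => h.elim i)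
  obtain ⟨i, hi⟩ := Finite.exists_max (fun i => ‖x i‖)
  have h1 : ‖x‖ = ‖x i‖ :=
    le_antisymm ((pi_norm_le_iff_of_nonneg (norm_nonneg _)).2 hi) (norm_le_pi_norm x i)
  have h2 : ‖x i‖ ≠ 0 := by
    rw [← h1]
    exact norm_ne_zero_iff.2 hx
  refine ⟨(x i)⁻¹, inv_ne_zero (norm_ne_zero_iff.1 h2), ?_⟩
  rw [norm_smul, h1, norm_inv, inv_mul_cancel₀ h2]

theorem val_smul' {n D : ℕ} {K : Type} [CommRing K] (c : Mon n D → K) (t : K)
    (x : Fin (n + 1) → K) : val c (t • x) = t ^ D * val c x := by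
  unfold val
  rw [Finset.mul_sum]
  refine Finset.sum_congr rfl fun m _ => ?_
  have h : ∑ i, m.1 i = D := (Finset.mem_piAntidiag.mp m.2).1
  simp only [Pi.smul_apply, smul_eq_mul, mul_pow, Finset.prod_mul_distrib,
    Finset.prod_pow_eq_pow_sum, h]
  ring

theorem near_smul {K : Type} [NormedField K] {n : ℕ} {δ : ℝ} {a b : Fin n → K} {t : K} (ht : t ≠ 0)
    (h : Pool.Agent.N718.DC.Near δ (t • a) b) : Pool.Agent.N718.DC.Near δ a b := by
  obtain ⟨l, hl, h⟩ := h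
  refine ⟨t⁻¹ * l, mul_ne_zero (inv_ne_zero ht) hl, fun j => ?_⟩
  have h1 := h j
  have h2 : ‖t‖ ≠ 0 := norm_ne_zero_iff.2 ht
  have h3 : 0 < ‖t‖ := norm_pos_iff.2 ht
  have h4 : (t • a) j - l * b j = t * (a j - t⁻¹ * l * b j) := by
    rw [Pi.smul_apply, smul_eq_mul, mul_sub, mul_assoc, mul_inv_cancel_left₀ ht]
  rw [h4, norm_mul, norm_smul] at h1
  have h5 : ‖t‖ * ‖a j - t⁻¹ * l * b j‖ ≤ ‖t‖ * (‖a‖ * δ) := by
    rw [← mul_assoc ‖t‖ ‖a‖ δ]
    exact h1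
  exact le_of_mul_le_mul_left h5 h3

theorem on_smul {n r : ℕ} {e : Fin r × Fin 3 → ℕ} (he : ∀ i l l', e (i, l) = e (i, l')) {K : Type}
    [Field K] (c : (k : Fin r × Fin 3) → Mon n (e k + 1) → ℤ) {X : Fin (n + 1) → K}
    {Z : Fin r → Fin 3 → K} {t : K} {u : Fin r → K} (hu : ∀ i, u i ≠ 0)
    (h : On (fun k => val (ic c K k) X) Z) :
    On (fun k => val (ic c K k) (t • X)) (fun i => u i • Z i) := by
  intro i
  obtain ⟨h1, h2⟩ := h i
  refine ⟨smul_ne_zero (hu i) h1, ?_⟩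
  simp only [Pi.smul_apply, smul_eq_mul]
  simp only at h2
  have p1 : t ^ (e (i, 1) + 1) = t ^ (e (i, 0) + 1) := by rw [he i 1 0]
  have p2 : t ^ (e (i, 2) + 1) = t ^ (e (i, 0) + 1) := by rw [he i 2 0]
  rw [val_smul', val_smul', val_smul', p1, p2]
  have h3 : ∀ v z : K, t ^ (e (i, 0) + 1) * v * (u i * z) ^ 2 =
      t ^ (e (i, 0) + 1) * u i ^ 2 * (v * z ^ 2) := by
    intro v z
    ring
  rw [h3, h3, h3, ← mul_add, h2]

/-- Part NRM: normalisation of the points. -/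
theorem nrm_ (n r : ℕ) (e : Fin r × Fin 3 → ℕ) (he : ∀ i l l', e (i, l) = e (i, l')) (m : ℕ)
    (hm : 1 ≤ m) (c : (k : Fin r × Fin 3) → Mon n (e k + 1) → ℤ)
    (h : WAn m (1 / (2 * (m : ℝ))) c) : WAm m c := by
  intro X Z XR ZR hX hXR hZR
  choose tX htX0 htX1 using fun p : Nat.Primes => norm_one' (X p) (hX p).1
  choose tZ htZ0 htZ1 using fun (p : Nat.Primes) (i : Fin r) => norm_one' (Z p i) ((hX p).2 i).1
  obtain ⟨tR, htR0, htR1⟩ := norm_one' XR hXR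
  choose uR huR0 huR1 using fun i : Fin r => norm_one' (ZR i) (hZR i).1
  have hm' : 2 * (1 / (2 * (m : ℝ))) = 1 / (m : ℝ) := by
    have : (m : ℝ) ≠ 0 := by
      have : m ≠ 0 := by omega
      exact_mod_cast this
    field_simp
  obtain ⟨x, z, h1, h2, h3, h4, h5⟩ := h (fun p => tX p • X p) (fun p i => tZ p i • Z p i)
    (tR • XR) (fun i => uR i • ZR i)
    (fun p _ => ⟨htX1 p, htZ1 p, on_smul he c (htZ0 p) (hX p).2⟩) htR1 huR1
    (on_smul he c huR0 hZR)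
  rw [hm'] at h3 h4 h5
  exact ⟨x, z, h1, h2, fun p hp => ⟨near_smul (htX0 p) (h3 p hp).1,
    fun i => near_smul (htZ0 p i) ((h3 p hp).2 i)⟩, near_smul htR0 h4,
    fun i => near_smul (huR0 i) (h5 i)⟩

end Pool.Agent.N607.PW
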